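import Pool.Agent.Q283.LP.Stm

/-! Project LP, job TYP: for regular labels most tuples are typical. -/

set_option autoImplicit false

open Finset
open scoped Classical

namespace Q162.LP

open Q283.LP

/-- the mean of a product over independent uniform values -/
lemma mean_prod {I S : Type} [Fintype I] [Fintype S] [Nonempty S] (P : Finset I) (h : S → ℝ) :
    ∑ t : I → S, ∏ p ∈ P, h (t p) =
      (Fintype.card (I → S) : ℝ) * ((∑ v, h v) / (Fintype.card S : ℝ)) ^ P.card := by
  have hK : (Fintype.card S : ℝ) ≠ 0 := by exact_mod_cast Fintype.card_ne_zero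
  have h1 : ∀ t : I → S, ∏ p ∈ P, h (t p) = ∏ p, (if p ∈ P then h (t p) else 1) := by
    intro t
    rw [Finset.prod_ite_mem, Finset.univ_inter]
  simp only [h1]
  have h2 := Finset.prod_univ_sum (fun _ : I => (Finset.univ : Finset S))
    (fun p v => if p ∈ P then h v else (1 : ℝ))
  rw [Fintype.piFinset_univ] at h2
  rw [← h2]
  have h3 : ∀ p : I, ∑ v : S, (if p ∈ P then h v else (1 : ℝ)) =
      (Fintype.card S : ℝ) * (if p ∈ P then (∑ v, h v) / (Fintype.card S : ℝ) else 1) := by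
    intro p
    split_ifs with hp
    · field_simp
    · simp
  rw [Finset.prod_congr rfl fun p _ => h3 p, Finset.prod_mul_distrib, Finset.prod_const, Finset.card_univ,
    Fintype.card_fun, Finset.prod_ite_mem, Finset.univ_inter, Finset.prod_const]
  push_cast
  rfl

/-- a nonzero linear form over `𝔽₂` vanishes on half of the vectors -/
lemma half {N : Type} [Fintype N] (e : N → ZMod 2) (he : e ≠ 0) :
    (∑ v : N → ZMod 2, (if ∑ i, e i * v i = 0 then (1 : ℝ) else 0)) / (Fintype.card (N → ZMod 2) : ℝ) = 1 / 2 := by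
  obtain ⟨i0, hi0⟩ := Function.ne_iff.1 he
  have hz : e i0 = 1 := by
    have h2 : ∀ x : ZMod 2, x ≠ 0 → x = 1 := by decide
    exact h2 _ hi0
  have hs : ∀ v : N → ZMod 2, ∑ i, e i * (v + (Pi.single i0 1 : N → ZMod 2)) i = ∑ i, e i * v i + 1 := by
    intro v
    simp only [Pi.add_apply, mul_add, Finset.sum_add_distrib]
    congr 1
    rw [Finset.sum_eq_single i0]
    · simp [hz]
    · intro b _ hb
      simp [Pi.single_eq_of_ne hb]
    · intro h
      exact absurd (Finset.mem_univ _) h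
  have h1 : ∑ v : N → ZMod 2, (if ∑ i, e i * v i = 0 then (1 : ℝ) else 0) =
      ∑ v : N → ZMod 2, (if ∑ i, e i * v i = 0 then (0 : ℝ) else 1) := by
    rw [← Equiv.sum_comp (Equiv.addRight (Pi.single i0 1 : N → ZMod 2))]
    refine Finset.sum_congr rfl fun v _ => ?_
    rw [Equiv.coe_addRight, hs]
    have h3 : ∀ x : ZMod 2, x + 1 = 0 ↔ x ≠ 0 := by decide
    by_cases h4 : ∑ i, e i * v i = 0
    · rw [if_neg (fun h => (h3 _).1 h h4), if_pos h4]
    · rw [if_pos ((h3 _).2 h4), if_neg h4]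
  have h2 : ∑ v : N → ZMod 2, (if ∑ i, e i * v i = 0 then (1 : ℝ) else 0) +
      ∑ v : N → ZMod 2, (if ∑ i, e i * v i = 0 then (0 : ℝ) else 1) = (Fintype.card (N → ZMod 2) : ℝ) := by
    rw [← Finset.sum_add_distrib]
    have : ∀ v : N → ZMod 2, (if ∑ i, e i * v i = 0 then (1 : ℝ) else 0) +
        (if ∑ i, e i * v i = 0 then (0 : ℝ) else 1) = 1 := by
      intro v
      split_ifs <;> norm_num
    rw [Finset.sum_congr rfl fun v _ => this v]
    simp
  have hK : (Fintype.card (N → ZMod 2) : ℝ) ≠ 0 := by exact_mod_cast Fintype.card_ne_zero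
  rw [div_eq_div_iff hK two_ne_zero]
  linarith

/-- counting by a product -/
lemma count_le {I S : Type} [Fintype I] [Fintype S] [Nonempty S] (P : Finset I) (h : S → ℝ) (hh : ∀ v, 0 ≤ h v)
    (Q : (I → S) → Prop) [DecidablePred Q] (c : ℝ) (hc : 0 ≤ c) (hQ : ∀ t, Q t → 1 ≤ c * ∏ p ∈ P, h (t p)) :
    ((univ.filter Q).card : ℝ) ≤
      c * ((Fintype.card (I → S) : ℝ) * ((∑ v, h v) / (Fintype.card S : ℝ)) ^ P.card) := by
  rw [← mean_prod, Finset.mul_sum, Finset.card_eq_sum_ones, Nat.cast_sum, Finset.sum_filter]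
  refine Finset.sum_le_sum fun t _ => ?_
  split_ifs with h1
  · simpa using hQ t h1
  · exact mul_nonneg hc (Finset.prod_nonneg fun p _ => hh _)

theorem t_TYP : S_TYP := by
  intro N M _ _ e he C R δ hδ
  set K : ℝ := (Fintype.card (N → ZMod 2) : ℝ) with hK
  have hK1 : 1 ≤ K := by
    rw [hK]
    exact_mod_cast Fintype.card_pos
  set ρ : ℝ := 1 - 1 / (2 * K) with hρ
  have hρ2 : 1 / 2 ≤ ρ := by
    rw [hρ]
    have : 1 / (2 * K) ≤ 1 / 2 := by
      rw [div_le_div_iff₀ (by positivity) (by norm_num)]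
      linarith
    linarith
  have hρ1 : ρ < 1 := by
    rw [hρ]
    have : 0 < 1 / (2 * K) := by positivity
    linarith
  have hρ0 : 0 < ρ := by linarith
  obtain ⟨A0, hA0⟩ := exists_pow_lt_of_lt_one (show (0 : ℝ) < 1 / 2 ^ C by positivity) hρ1
  set Z : ℝ := K + K * 2 ^ R + (Fintype.card M : ℝ) with hZ
  have hZ0 : 0 < Z := by positivity
  obtain ⟨R', hR'⟩ := exists_pow_lt_of_lt_one (show (0 : ℝ) < δ / Z by positivity) hρ1
  refine ⟨A0 + 1, R', ?_⟩
  intro U I _ _ g hg
  set T : ℝ := (Fintype.card (I → N → ZMod 2) : ℝ) with hT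
  have hT0 : 0 ≤ T := Nat.cast_nonneg _
  set u : ℕ := Fintype.card U with hu
  have hA1 : (2 : ℝ) ^ C * ρ ^ (A0 + 1) ≤ 1 := by
    have h1 : ρ ^ (A0 + 1) ≤ ρ ^ A0 := pow_le_pow_of_le_one hρ0.le hρ1.le (Nat.le_succ _)
    have h2 : ρ ^ (A0 + 1) ≤ 1 / 2 ^ C := h1.trans hA0.le
    rw [le_div_iff₀ (by positivity)] at h2
    linarith
  have hA2 : (2 : ℝ) * (1 / 2) ^ (A0 + 1) ≤ 1 := by
    rw [pow_succ]
    have : ((1 : ℝ) / 2) ^ A0 ≤ 1 := pow_le_one₀ (by norm_num) (by norm_num)
    linarith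
  have hρR : ∀ n : ℕ, (A0 + 1) * u + R' ≤ n → ρ ^ n ≤ ρ ^ R' := fun n hn =>
    pow_le_pow_of_le_one hρ0.le hρ1.le (by nlinarith [Nat.zero_le ((A0 + 1) * u)])
  -- the bad sets
  have hpas : ∀ s : N → ZMod 2, ((univ.filter fun t : I → N → ZMod 2 => ∀ p, ¬ g.aI p → t p ≠ s).card : ℝ) ≤
      T * ρ ^ R' := by
    intro s
    have h1 := count_le (univ.filter fun p => ¬ g.aI p) (fun v : N → ZMod 2 => if v ≠ s then (1 : ℝ) else 0)
      (fun v => by split_ifs <;> norm_num) (fun t : I → N → ZMod 2 => ∀ p, ¬ g.aI p → t p ≠ s) 1 zero_le_one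
      (fun t ht => by
        rw [one_mul]
        refine le_of_eq ?_
        rw [eq_comm]
        refine Finset.prod_eq_one fun p hp => ?_
        rw [if_pos (ht p (Finset.mem_filter.1 hp).2)])
    refine h1.trans ?_
    rw [one_mul]
    refine mul_le_mul_of_nonneg_left ?_ hT0
    have h2 : (∑ v : N → ZMod 2, (if v ≠ s then (1 : ℝ) else 0)) = K - 1 := by
      have h3 : ∀ v : N → ZMod 2, (if v ≠ s then (1 : ℝ) else 0) = 1 - (if v = s then 1 else 0) := by
        intro v
        by_cases h : v = s <;> simp [h]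
      rw [Finset.sum_congr rfl fun v _ => h3 v, Finset.sum_sub_distrib]
      simp [hK]
    rw [h2]
    have h4 : (K - 1) / K ≤ ρ := by
      rw [hρ, div_le_iff₀ (by positivity)]
      have : (1 - 1 / (2 * K)) * K = K - 1 / 2 := by field_simp
      rw [this]
      linarith
    have h5 : 0 ≤ (K - 1) / K := div_nonneg (by linarith) (by linarith)
    exact (pow_le_pow_left₀ h5 h4 _).trans (hρR _ hg.pas)
  have hact : ∀ s : N → ZMod 2, ((univ.filter fun t : I → N → ZMod 2 =>
      ¬ (C * u + R ≤ (univ.filter fun p => g.aI p ∧ t p = s).card)).card : ℝ) ≤ T * (2 ^ R * ρ ^ R') := by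
    intro s
    have h1 := count_le (univ.filter fun p => g.aI p) (fun v : N → ZMod 2 => if v = s then (1 / 2 : ℝ) else 1)
      (fun v => by split_ifs <;> norm_num) (fun t : I → N → ZMod 2 =>
        ¬ (C * u + R ≤ (univ.filter fun p => g.aI p ∧ t p = s).card)) (2 ^ (C * u + R)) (by positivity)
      (fun t ht => by
        have h2 : ∏ p ∈ univ.filter (fun p => g.aI p), (if t p = s then (1 / 2 : ℝ) else 1) =
            (1 / 2) ^ (univ.filter fun p => g.aI p ∧ t p = s).card := by
          rw [Finset.prod_ite, Finset.prod_const, Finset.prod_const_one, mul_one, Finset.filter_filter]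
        rw [h2]
        have h3 : (univ.filter fun p => g.aI p ∧ t p = s).card ≤ C * u + R := by omega
        calc (1 : ℝ) = 2 ^ (C * u + R) * (1 / 2) ^ (C * u + R) := by rw [← mul_pow]; norm_num
          _ ≤ 2 ^ (C * u + R) * (1 / 2) ^ (univ.filter fun p => g.aI p ∧ t p = s).card := by
            refine mul_le_mul_of_nonneg_left ?_ (by positivity)
            exact pow_le_pow_of_le_one (by norm_num) (by norm_num) h3)
    refine h1.trans ?_
    have h2 : (∑ v : N → ZMod 2, (if v = s then (1 / 2 : ℝ) else 1)) = K - 1 / 2 := by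
      have h3 : ∀ v : N → ZMod 2, (if v = s then (1 / 2 : ℝ) else 1) = 1 - (if v = s then 1 / 2 else 0) := by
        intro v
        by_cases h : v = s
        · rw [if_pos h, if_pos h]; norm_num
        · rw [if_neg h, if_neg h]; norm_num
      rw [Finset.sum_congr rfl fun v _ => h3 v, Finset.sum_sub_distrib]
      simp [hK]
    have h4 : (K - 1 / 2) / K = ρ := by
      rw [hρ]
      field_simp
    rw [h2, h4]
    have h5 : ρ ^ (univ.filter fun p => g.aI p).card ≤ ρ ^ ((A0 + 1) * u + R') :=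
      pow_le_pow_of_le_one hρ0.le hρ1.le hg.act
    calc (2 : ℝ) ^ (C * u + R) * (T * ρ ^ (univ.filter fun p => g.aI p).card)
        ≤ 2 ^ (C * u + R) * (T * ρ ^ ((A0 + 1) * u + R')) := by gcongr
      _ = T * (2 ^ R * ρ ^ R') * (2 ^ C * ρ ^ (A0 + 1)) ^ u := by
          rw [pow_add, pow_add, mul_pow, pow_mul, pow_mul]
          ring
      _ ≤ T * (2 ^ R * ρ ^ R') * 1 := by
          refine mul_le_mul_of_nonneg_left (pow_le_one₀ (by positivity) hA1) (by positivity)
      _ = _ := mul_one _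
  have hreg : ∀ (j : M) (w : Finset U), w.Nonempty ∧ (∀ x ∈ w, g.aU x) →
      ((univ.filter fun t : I → N → ZMod 2 => ∀ p, g.aI p ∧ ∑ x ∈ w, g.lb p x ≠ 0 →
        ∑ i, e j i * t p i = 0).card : ℝ) ≤ T * (1 / 2) ^ ((A0 + 1) * u + R') := by
    intro j w hw
    have h1 := count_le (univ.filter fun p => g.aI p ∧ ∑ x ∈ w, g.lb p x ≠ 0)
      (fun v : N → ZMod 2 => if ∑ i, e j i * v i = 0 then (1 : ℝ) else 0)
      (fun v => by split_ifs <;> norm_num) (fun t : I → N → ZMod 2 => ∀ p, g.aI p ∧ ∑ x ∈ w, g.lb p x ≠ 0 →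
        ∑ i, e j i * t p i = 0) 1 zero_le_one
      (fun t ht => by
        rw [one_mul]
        refine le_of_eq ?_
        rw [eq_comm]
        refine Finset.prod_eq_one fun p hp => ?_
        rw [if_pos (ht p (Finset.mem_filter.1 hp).2)])
    refine h1.trans ?_
    rw [one_mul, half (e j) (he j)]
    refine mul_le_mul_of_nonneg_left ?_ hT0
    exact pow_le_pow_of_le_one (by norm_num) (by norm_num) (hg.nd w hw.1 hw.2)
  -- the union
  have hsub : (univ.filter fun t : I → N → ZMod 2 => ¬ Ty g e C R t) ⊆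
      ((univ : Finset (N → ZMod 2)).biUnion fun s => univ.filter fun t : I → N → ZMod 2 => ∀ p, ¬ g.aI p → t p ≠ s) ∪
      (((univ : Finset (N → ZMod 2)).biUnion fun s => univ.filter fun t : I → N → ZMod 2 =>
        ¬ (C * u + R ≤ (univ.filter fun p => g.aI p ∧ t p = s).card)) ∪
      ((univ : Finset M) ×ˢ (univ.filter fun w : Finset U => w.Nonempty ∧ ∀ x ∈ w, g.aU x)).biUnion fun jw =>
        univ.filter fun t : I → N → ZMod 2 => ∀ p, g.aI p ∧ ∑ x ∈ jw.2, g.lb p x ≠ 0 →
          ∑ i, e jw.1 i * t p i = 0) := by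
    intro t ht
    rw [Finset.mem_filter] at ht
    by_contra hcon
    simp only [Finset.mem_union, Finset.mem_biUnion, Finset.mem_filter, Finset.mem_univ, true_and, not_or,
      not_exists, Finset.mem_product, not_and, not_forall, not_not] at hcon
    obtain ⟨c1, c2, c3⟩ := hcon
    refine ht.2 ⟨fun s => ?_, fun s => c2 s, fun j w hw1 hw2 => ?_⟩
    · obtain ⟨p, hp1, hp2⟩ := c1 s
      exact ⟨p, hp1, hp2⟩
    · obtain ⟨p, hp, hp2⟩ := c3 (j, w) ⟨hw1, hw2⟩
      refine ⟨p, hp.1, ?_, hp.2⟩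
      have h2 : ∀ x : ZMod 2, x ≠ 0 → x = 1 := by decide
      exact h2 _ hp2
  have hcard := (Finset.card_le_card hsub).trans ((Finset.card_union_le _ _).trans
    (Nat.add_le_add_left (Finset.card_union_le _ _) _))
  have hcard' : ((univ.filter fun t : I → N → ZMod 2 => ¬ Ty g e C R t).card : ℝ) ≤
      K * (T * ρ ^ R') + (K * (T * (2 ^ R * ρ ^ R')) + (Fintype.card M : ℝ) * (T * ρ ^ R')) := by
    have h1 : (((univ : Finset (N → ZMod 2)).biUnion fun s => univ.filter fun t : I → N → ZMod 2 =>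
        ∀ p, ¬ g.aI p → t p ≠ s).card : ℝ) ≤ K * (T * ρ ^ R') := by
      refine (Nat.cast_le.2 Finset.card_biUnion_le).trans ?_
      rw [Nat.cast_sum]
      refine (Finset.sum_le_sum fun s _ => hpas s).trans (le_of_eq ?_)
      rw [Finset.sum_const, Finset.card_univ, nsmul_eq_mul]
    have h2 : (((univ : Finset (N → ZMod 2)).biUnion fun s => univ.filter fun t : I → N → ZMod 2 =>
        ¬ (C * u + R ≤ (univ.filter fun p => g.aI p ∧ t p = s).card)).card : ℝ) ≤ K * (T * (2 ^ R * ρ ^ R')) := by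
      refine (Nat.cast_le.2 Finset.card_biUnion_le).trans ?_
      rw [Nat.cast_sum]
      refine (Finset.sum_le_sum fun s _ => hact s).trans (le_of_eq ?_)
      rw [Finset.sum_const, Finset.card_univ, nsmul_eq_mul]
    have h3 : ((((univ : Finset M) ×ˢ (univ.filter fun w : Finset U => w.Nonempty ∧ ∀ x ∈ w, g.aU x)).biUnion fun jw =>
        univ.filter fun t : I → N → ZMod 2 => ∀ p, g.aI p ∧ ∑ x ∈ jw.2, g.lb p x ≠ 0 →
          ∑ i, e jw.1 i * t p i = 0).card : ℝ) ≤ (Fintype.card M : ℝ) * (T * ρ ^ R') := by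
      refine (Nat.cast_le.2 Finset.card_biUnion_le).trans ?_
      rw [Nat.cast_sum]
      refine (Finset.sum_le_sum fun jw hjw => hreg jw.1 jw.2
        (Finset.mem_filter.1 (Finset.mem_product.1 hjw).2).2).trans ?_
      rw [Finset.sum_const, Finset.card_product, Finset.card_univ, nsmul_eq_mul]
      have h4 : ((univ.filter fun w : Finset U => w.Nonempty ∧ ∀ x ∈ w, g.aU x).card : ℝ) ≤ 2 ^ u := by
        have := Finset.card_le_univ (univ.filter fun w : Finset U => w.Nonempty ∧ ∀ x ∈ w, g.aU x)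
        rw [Fintype.card_finset] at this
        exact_mod_cast this
      push_cast
      calc (Fintype.card M : ℝ) * ((univ.filter fun w : Finset U => w.Nonempty ∧ ∀ x ∈ w, g.aU x).card : ℝ) *
            (T * (1 / 2) ^ ((A0 + 1) * u + R')) ≤
            (Fintype.card M : ℝ) * 2 ^ u * (T * (1 / 2) ^ ((A0 + 1) * u + R')) := by gcongr
        _ = (Fintype.card M : ℝ) * (T * (1 / 2) ^ R') * (2 * (1 / 2) ^ (A0 + 1)) ^ u := by
            rw [pow_add, mul_pow, pow_mul]
            ring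
        _ ≤ (Fintype.card M : ℝ) * (T * (1 / 2) ^ R') * 1 :=
            mul_le_mul_of_nonneg_left (pow_le_one₀ (by positivity) hA2) (by positivity)
        _ ≤ (Fintype.card M : ℝ) * (T * ρ ^ R') := by
            rw [mul_one]
            gcongr
    refine (Nat.cast_le.2 hcard).trans ?_
    push_cast
    linarith
  refine hcard'.trans ?_
  have h5 : K * (T * ρ ^ R') + (K * (T * (2 ^ R * ρ ^ R')) + (Fintype.card M : ℝ) * (T * ρ ^ R')) =
      (Z * ρ ^ R') * T := by
    rw [hZ]
    ring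
  rw [h5]
  refine mul_le_mul_of_nonneg_right ?_ hT0
  rw [lt_div_iff₀ hZ0] at hR'
  linarith

end Q162.LP
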